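import Pool.Agent.H330.MR

/-!
# The Malle–Robinson conjecture: primitive permutation groups with three normal subgroups suffice

Let `p` be a prime, and let `q > 7` be a prime with `p ∣ q + 1` (and `4 ∣ q + 1` if `p = 2`); there
are infinitely many such `q`. Let `X_n` be the permutational wreath product of `PSL(2, q)` and the
alternating group `A_n` in its action on the `n (n - 1)` ordered pairs of distinct points.

(0) `s(D)`, the sectional `p`-rank of a finite group `D`, is the greatest `r` such that `D` has an
elementary abelian section of rank `r`.

(1) For `n ≥ 5` the group `X_n` has exactly three normal subgroups `1 < M < X_n`, where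
`M = PSL(2, q) ^ (n (n - 1))` and `X_n / M = A_n`, and `X_n` is isomorphic to a primitive
permutation group.

(2) Let `k` be an algebraically closed field of characteristic `p`. For every block `B` of `kG`, `G`
any finite group, and all `n ≥ |G| ^ 2 + 3 |G|`, there is a block `B'` of `k X_n` which is a matrix
ring over `B`, with isomorphic defect groups and with `l(B') = l(B)`.

(3) So the inequality `l(B) ≤ p ^ s(D)` of Malle and Robinson holds for all blocks (with defect
group `D`) of all finite groups if and only if it holds for the blocks of the groups `X_n`, `n` in an
infinite set, if and only if it holds for the blocks of the finite primitive permutation groups which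
have exactly three normal subgroups. The last equivalence is true for every other relation between
the isomorphism type of the defect group `D` and the number `l(B)`.

The reduction uses the block theory of helper373 (`Pool.Agent.H373`): every finite group `G` is the
stabiliser in `A_n` of a set of ordered pairs; two linear characters of a Borel subgroup of
`PSL(2, q)` of order prime to `p` define a linear character of a subgroup `V` of order prime to `p`
of the base group, `G` normalises `V` and fixes the linear character, and Mackey's condition holds
outside `V G`, so that induction from `V G` to `X_n` identifies the blocks of `G` with blocks of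
`X_n`.
-/

set_option autoImplicit false

open Pool.Agent.H373.BU Pool.Agent.H373.MN Pool.Agent.H330.MR

theorem Pool.Agent.Results.MP_931192_al.ThreeNormalSubgroups.result (p : ℕ) [Fact p.Prime] :
    (∀ (X : Type) [Group X] [Finite X], IsGreatest {r | HasSection p X r} (sRank p X)) ∧
    (∀ N : ℕ, ∃ q, N < q ∧ Good p q) ∧
    ∀ q, Good p q →
      (∀ n, 5 ≤ n → ThreeNormal p q n (XP n q) ∧ IsPrimitiveGroup (XP n q)) ∧
      ∀ (k : Type) [Field k] [IsAlgClosed k] [CharP k p],
        (∀ (G : Type) [Group G] [Finite G] (n : ℕ), Nat.card G ^ 2 + 3 * Nat.card G ≤ n →
          Repro p k G (XP n q)) ∧
        (∀ S : Set ℕ, S.Infinite →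
          ((∀ (G : Type) [Group G] [Finite G], MalleRobinson p k G) ↔
            ∀ n ∈ S, MalleRobinson p k (XP n q))) ∧
        ((∀ (G : Type) [Group G] [Finite G], MalleRobinson p k G) ↔
          ∀ (X : Type) [Group X] [Finite X], PrimitiveThree X → MalleRobinson p k X) ∧
        ∀ R : (D : Type) → [Group D] → ℕ → Prop, Inv R →
          ((∀ (G : Type) [Group G] [Finite G] (B : Blk k G) (D : Subgroup G),
              B.IsDef p D → R D B.l) ↔
            ∀ (X : Type) [Group X] [Finite X], PrimitiveThree X →
              ∀ (B : Blk k X) (D : Subgroup X), B.IsDef p D → R D B.l) :=
  ⟨fun X _ _ => sRank_spec X, main p⟩
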